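import Mathlib
import Pool.Agent.U707.PT.Stm
import Pool.Agent.V11211.Trace

/-! Project PT (helper707), package DET (helper750): simple modules and traces (Brauer, Nesbitt). -/

set_option autoImplicit false
set_option linter.style.haveILetI false

namespace Pool.Agent.U750.PT

open Module
open Pool.Agent.U707.PT

/-- an element which is the identity on `U` and zero on `U'` -/
theorem sep {E R : Type} [Field E] [Ring R] [Algebra E R] {U U' : Type}
    [AddCommGroup U] [Module E U] [Module R U] [IsScalarTower E R U] [FiniteDimensional E U]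
    [IsSimpleModule R U] [AddCommGroup U'] [Module E U'] [Module R U'] [IsScalarTower E R U']
    [FiniteDimensional E U'] [IsSimpleModule R U'] (h : ¬ Nonempty (U ≃ₗ[R] U')) :
    ∃ r : R, (∀ u : U, r • u = u) ∧ ∀ u : U', r • u = 0 := by
  classical
  have h1 : ∀ f : U →ₗ[R] U', f = 0 := by
    intro f
    rcases LinearMap.bijective_or_eq_zero f with hf | hf
    · exact absurd ⟨LinearEquiv.ofBijective f hf⟩ h
    · exact hf
  have h2 : ∀ f : U' →ₗ[R] U, f = 0 := by
    intro f
    rcases LinearMap.bijective_or_eq_zero f with hf | hf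
    · exact absurd ⟨(LinearEquiv.ofBijective f hf).symm⟩ h
    · exact hf
  have key : ∀ (g : End R (U × U')) (x : U × U'), ((g x).1, (0 : U')) = g (x.1, 0) := by
    intro g x
    have e1 : x = (x.1, (0 : U')) + ((0 : U), x.2) := by simp
    have e2 : (g ((0 : U), x.2)).1 = 0 := by
      have := h2 ((LinearMap.fst R U U').comp (g.comp (LinearMap.inr R U U')))
      simpa using congrArg (fun f => f x.2) this
    have e3 : (g (x.1, (0 : U'))).2 = 0 := by
      have := h1 ((LinearMap.snd R U U').comp (g.comp (LinearMap.inl R U U')))
      simpa using congrArg (fun f => f x.1) this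
    have e4 : (g x).1 = (g (x.1, (0 : U'))).1 := by
      conv_lhs => rw [e1, map_add]
      rw [Prod.fst_add, e2, add_zero]
    rw [e4]
    exact Prod.ext rfl e3.symm
  let p : End (End R (U × U')) (U × U') :=
    { toFun := fun x => (x.1, 0)
      map_add' := fun x y => by simp
      map_smul' := fun g x => by
        show ((g x).1, (0 : U')) = g (x.1, 0)
        exact key g x }
  let b := finBasis E (U × U')
  haveI i1 : IsSemisimpleModule R (LinearMap.range (LinearMap.inl R U U')) :=
    IsSemisimpleModule.congr (LinearEquiv.ofInjective _ LinearMap.inl_injective).symm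
  haveI i2 : IsSemisimpleModule R (LinearMap.range (LinearMap.inr R U U')) :=
    IsSemisimpleModule.congr (LinearEquiv.ofInjective _ LinearMap.inr_injective).symm
  haveI i3 : IsSemisimpleModule R (⊤ : Submodule R (U × U')) := by
    rw [← LinearMap.sup_range_inl_inr]
    exact IsSemisimpleModule.sup i1 i2
  haveI : IsSemisimpleModule R (U × U') := IsSemisimpleModule.congr Submodule.topEquiv.symm
  obtain ⟨r, hr⟩ := jacobson_density p (Finset.univ.image b)
  have hr' : ∀ x : U × U', r • x = (x.1, (0 : U')) := by
    have e : act (E := E) (U × U') r = (LinearMap.inl E U U').comp (LinearMap.fst E U U') := by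
      refine b.ext fun i => ?_
      have := hr (b i) (Finset.mem_image_of_mem _ (Finset.mem_univ i))
      show r • b i = ((b i).1, (0 : U'))
      exact this.symm
    intro x
    exact congrArg (fun f => f x) e
  refine ⟨r, fun u => ?_, fun u => ?_⟩
  · exact congrArg Prod.fst (hr' (u, 0))
  · exact congrArg Prod.snd (hr' (0, u))

section
variable {E R : Type} [Field E] [Ring R] [Algebra E R]

/-- additivity of the trace -/
theorem trace_add {M : Type} [AddCommGroup M] [Module E M] [Module R M] [IsScalarTower E R M]
    [FiniteDimensional E M] (W : Submodule R M) (r : R) :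
    LinearMap.trace E M (act M r) = LinearMap.trace E W (act W r) +
      LinearMap.trace E (M ⧸ W) (act (M ⧸ W) r) := by
  have hW : W.restrictScalars E ≤ (W.restrictScalars E).comap (act (E := E) M r) := by
    intro x hx
    exact W.smul_mem r hx
  rw [Pool.Agent.V11211.trace_eq_add (W.restrictScalars E) (act (E := E) M r) hW]
  congr 1

/-- subquotients and a simple submodule -/
theorem subquot_iff {U M : Type} [AddCommGroup U] [Module R U] [IsSimpleModule R U]
    [AddCommGroup M] [Module R M] (W : Submodule R M) [IsSimpleModule R W] :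
    IsSubquot R U M ↔ Nonempty (U ≃ₗ[R] W) ∨ IsSubquot R U (M ⧸ W) := by
  constructor
  · rintro ⟨B, f, hf⟩
    by_cases h : ∃ x : B, (x : M) ∈ W ∧ f x ≠ 0
    · left
      obtain ⟨x, hxW, hfx⟩ := h
      -- `W ≤ B`
      have hWB : W ≤ B := by
        have hat : IsAtom W := isSimpleModule_iff_isAtom.1 inferInstance
        have h1 : W ⊓ B = ⊥ ∨ W ⊓ B = W := by
          rcases hat.le_iff.1 (inf_le_left : W ⊓ B ≤ W) with h | h
          · exact Or.inl h
          · exact Or.inr h
        rcases h1 with h1 | h1
        · exfalso
          have : (x : M) ∈ W ⊓ B := ⟨hxW, x.2⟩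
          rw [h1, Submodule.mem_bot] at this
          have hx0 : x = 0 := Subtype.ext this
          rw [hx0, map_zero] at hfx
          exact hfx rfl
        · exact h1 ▸ inf_le_right
      let g : W →ₗ[R] U := f.comp (Submodule.inclusion hWB)
      rcases LinearMap.bijective_or_eq_zero g with hg | hg
      · exact ⟨(LinearEquiv.ofBijective g hg).symm⟩
      · exfalso
        apply hfx
        have := congrArg (fun k => k ⟨x, hxW⟩) hg
        exact this
    · right
      push Not at h
      let g : B →ₗ[R] (M ⧸ W) := W.mkQ.comp B.subtype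
      have hker : LinearMap.ker g ≤ LinearMap.ker f := by
        intro x hx
        rw [LinearMap.mem_ker] at hx ⊢
        refine h x ?_
        have : W.mkQ (x : M) = 0 := hx
        rwa [Submodule.mkQ_apply, Submodule.Quotient.mk_eq_zero] at this
      refine ⟨LinearMap.range g, ((LinearMap.ker g).liftQ f hker).comp
        g.quotKerEquivRange.symm.toLinearMap, ?_⟩
      intro u
      obtain ⟨x, hx⟩ := hf u
      refine ⟨g.quotKerEquivRange (Submodule.Quotient.mk x), ?_⟩
      simp [hx]
  · rintro (⟨⟨e⟩⟩ | ⟨B, f, hf⟩)
    · exact ⟨W, e.symm.toLinearMap, e.symm.surjective⟩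
    · refine ⟨B.comap W.mkQ, f.comp (W.mkQ.restrict (fun x hx => hx)), ?_⟩
      intro u
      obtain ⟨⟨y, hy⟩, hx⟩ := hf u
      obtain ⟨z, rfl⟩ := Submodule.Quotient.mk_surjective _ y
      exact ⟨⟨z, hy⟩, hx⟩

/-- the multiplicity and a test element -/
theorem mult {U : Type} [AddCommGroup U] [Module E U] [Module R U] [IsScalarTower E R U]
    [FiniteDimensional E U] [IsSimpleModule R U] (n : ℕ) :
    ∀ (M : Type) [AddCommGroup M] [Module E M] [Module R M] [IsScalarTower E R M]
      [FiniteDimensional E M], finrank E M = n →
    ∃ (k : ℕ) (r₀ : R), (∀ u : U, r₀ • u = u) ∧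
      (∀ s s' : R, (∀ u : U, s • u = u) → (∀ u : U, s' • u = u) →
        LinearMap.trace E M (act M (s * r₀ * s')) = ((k * finrank E U : ℕ) : E)) ∧
      (0 < k ↔ IsSubquot R U M) := by
  induction n using Nat.strong_induction_on with
  | _ n ih =>
    intro M _ _ _ _ _ hn
    rcases subsingleton_or_nontrivial M with hM | hM
    · refine ⟨0, 1, fun u => one_smul _ _, fun s s' _ _ => ?_, ?_⟩
      · have : act (E := E) M (s * 1 * s') = 0 := LinearMap.ext fun x => Subsingleton.elim _ _
        rw [this, map_zero]
        simp
      · simp only [lt_irrefl, false_iff]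
        rintro ⟨B, f, hf⟩
        haveI : Nontrivial U := IsSimpleModule.nontrivial R U
        obtain ⟨u, hu⟩ := exists_ne (0 : U)
        obtain ⟨x, hx⟩ := hf u
        have : x = 0 := Subsingleton.elim _ _
        rw [this, map_zero] at hx
        exact hu hx.symm
    · haveI : IsArtinian R M := isArtinian_of_tower E inferInstance
      obtain ⟨W, hW⟩ := IsAtomic.exists_atom (Submodule R M)
      haveI : IsSimpleModule R W := isSimpleModule_iff_isAtom.2 hW
      haveI : FiniteDimensional E W :=
        inferInstanceAs (FiniteDimensional E (W.restrictScalars E))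
      haveI : FiniteDimensional E (M ⧸ W) :=
        inferInstanceAs (FiniteDimensional E (M ⧸ W.restrictScalars E))
      have hlt : finrank E (M ⧸ W) < n := by
        have h1 := Submodule.finrank_quotient_add_finrank (W.restrictScalars E)
        have h2 : 0 < finrank E (W.restrictScalars E) := by
          haveI : Nontrivial W := IsSimpleModule.nontrivial R W
          exact (finrank_pos : 0 < finrank E W)
        have h3 : finrank E (M ⧸ W) = finrank E (M ⧸ W.restrictScalars E) :=
          (LinearEquiv.finrank_eq (Submodule.Quotient.restrictScalarsEquiv E W)).symm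
        omega
      obtain ⟨k', r', hr', htr, hk'⟩ := ih _ hlt (M ⧸ W) rfl
      by_cases hiso : Nonempty (U ≃ₗ[R] W)
      · refine ⟨k' + 1, r', hr', fun s s' hs hs' => ?_, ?_⟩
        · rw [trace_add W, htr s s' hs hs']
          obtain ⟨e⟩ := hiso
          have h1 : ∀ w : W, (s * r' * s') • w = w := by
            intro w
            obtain ⟨u, rfl⟩ := e.surjective w
            rw [← map_smul, mul_smul, mul_smul, hs' u, hr' u, hs u]
          have h2 : act (E := E) W (s * r' * s') = LinearMap.id := LinearMap.ext h1
          have h3 : finrank E W = finrank E U :=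
            (LinearEquiv.finrank_eq (e.restrictScalars E)).symm
          rw [h2, LinearMap.trace_id, h3]
          push_cast
          ring
        · simp only [Nat.zero_lt_succ, true_iff]
          exact (subquot_iff W).2 (Or.inl hiso)
      · obtain ⟨r₁, h1, h0⟩ := sep (E := E) hiso
        refine ⟨k', r' * r₁, fun u => by rw [mul_smul, h1, hr'], fun s s' hs hs' => ?_, ?_⟩
        · rw [trace_add W]
          have h2 : act (E := E) W (s * (r' * r₁) * s') = 0 := by
            refine LinearMap.ext fun w => ?_
            show (s * (r' * r₁) * s') • w = 0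
            rw [mul_smul, mul_smul, mul_smul, h0, smul_zero, smul_zero]
          have h3 : s * (r' * r₁) * s' = s * r' * (r₁ * s') := by simp only [mul_assoc]
          rw [h2, map_zero, zero_add, h3]
          exact htr s (r₁ * s') hs fun u => by rw [mul_smul, hs', h1]
        · rw [hk', subquot_iff W]
          exact ⟨Or.inr, fun h => h.resolve_left hiso⟩

end

theorem t_DET : S_DET := by
  intro E R _ _ _ _ ι _ M _ _ _ _ _ b hb U _ _ _ _ _ _ i₀ hi₀ hsub
  classical
  choose k r₀ h1 htr hk using fun i => mult (E := E) (R := R) (U := U) (finrank E (M i)) (M i) rfl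
  have hr : ∀ s : Finset ι, ∃ r : R, (∀ u : U, r • u = u) ∧ ∀ i ∈ s, ∀ t t' : R,
      (∀ u : U, t • u = u) → (∀ u : U, t' • u = u) →
      LinearMap.trace E (M i) (act (M i) (t * r * t')) = ((k i * finrank E U : ℕ) : E) := by
    intro s
    induction s using Finset.induction_on with
    | empty => exact ⟨1, fun u => one_smul _ _, by simp⟩
    | insert a s ha ih =>
      obtain ⟨r, hr, hs⟩ := ih
      refine ⟨r * r₀ a, fun u => by rw [mul_smul, h1, hr], fun i hi t t' ht ht' => ?_⟩
      rcases Finset.mem_insert.1 hi with rfl | hi
      · have e : t * (r * r₀ i) * t' = (t * r) * r₀ i * t' := by simp only [mul_assoc]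
        rw [e]
        exact htr i (t * r) t' (fun u => by rw [mul_smul, hr, ht]) ht'
      · have e : t * (r * r₀ a) * t' = t * r * (r₀ a * t') := by simp only [mul_assoc]
        rw [e]
        exact hs i hi t (r₀ a * t') ht (fun u => by rw [mul_smul, ht', h1])
  obtain ⟨r, -, hr⟩ := hr Finset.univ
  have h2 := hb (1 * r * 1)
  have h3 : (((∑ i, b i * k i) * finrank E U : ℤ) : E) = 0 := by
    rw [← h2]
    push_cast
    rw [Finset.sum_mul]
    refine Finset.sum_congr rfl fun i _ => ?_
    rw [hr i (Finset.mem_univ i) 1 1 (fun u => one_smul _ _) (fun u => one_smul _ _)]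
    push_cast
    ring
  have h4 : (∑ i, b i * k i) * (finrank E U : ℤ) = 0 := by exact_mod_cast h3
  haveI : Nontrivial U := IsSimpleModule.nontrivial R U
  have h5 : (0 : ℤ) < finrank E U := by exact_mod_cast (finrank_pos : 0 < finrank E U)
  have h6 : ∑ i, b i * (k i : ℤ) = 0 := by
    rcases mul_eq_zero.1 h4 with h | h
    · exact h
    · exact absurd h h5.ne'
  by_contra hcon
  push Not at hcon
  have h7 : ∀ i ∈ Finset.univ, 0 ≤ b i * (k i : ℤ) := by
    intro i _
    rcases lt_or_ge (b i) 0 with h | h
    · have : ¬ 0 < k i := fun h' => hcon i h ((hk i).1 h')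
      have : k i = 0 := by omega
      rw [this]
      simp
    · positivity
  have h8 := (Finset.sum_eq_zero_iff_of_nonneg h7).1 h6 i₀ (Finset.mem_univ _)
  have h9 : 0 < k i₀ := (hk i₀).2 hsub
  have : 0 < b i₀ * (k i₀ : ℤ) := mul_pos hi₀ (by exact_mod_cast h9)
  omega

end Pool.Agent.U750.PT
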